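import Pool.Agent.Lib.MP_83fbc5_gt.AP.Rich
import Pool.Agent.Lib.MP_83fbc5_gt.RFC.V1

/-!
# MP_83fbc5_gt: normalised Betti numbers in characteristic `p` and in characteristic zero

`nm a` is the sum of the absolute values of the coefficients of `a ∈ ℤ[G]`. `Exhausting N`: every `g ≠ 1` is in only finitely many `N i`
(for instance chains). `RichIn H N`: `N i ≤ H` for all large `i`, and every nontrivial finitely generated subgroup `S` of `H` has a
surjection `φ : S → ℤ` such that for infinitely many `m` and all large `i` (depending on `m`) `S ∩ N i ⊆ φ⁻¹(m ℤ)`; see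
`CofinalChains`. `rk`, `betti`, `FFR` as in `MatrixEquivalence`.
-/

set_option autoImplicit false

namespace Pool.Agent.Results.MP_83fbc5_gt.AlmostAllCharacteristics

open NBT RFC APR Filter

universe w

/-- (1) one normal subgroup `N` of finite index, finitely many fields of distinct prime characteristics -/
def OneSubgroup : Prop :=
  ∀ (G : Type) [Group G] (D : ℕ) (R : FFR G D) (K : ℕ), (∀ n i, ∑ j, nm (R.d n i j) ≤ K) →
    ∀ (n : ℕ) (N : Subgroup G) [N.Normal] [N.FiniteIndex] (ι : Type) [Fintype ι] (F : ι → Type w) [∀ j, Field (F j)]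
      (p : ι → ℕ) [∀ j, CharP (F j) (p j)], (∀ j, (p j).Prime) → Function.Injective p →
      (∀ j, betti ℚ R N n ≤ betti (F j) R N n) ∧
        ∏ j, p j ^ (betti (F j) R N n - betti ℚ R N n) ≤ K ^ (Fintype.card (R.ι n) * N.index - betti ℚ R N n)

/-- (2) all sequences of normal subgroups of finite index converging to the trivial group: the limit in characteristic zero, and
bounds which hold for all prime characteristics simultaneously -/
def AllSequences : Prop :=
  ∀ (G : Type) [Group G] (D : ℕ) (R : FFR G D) (K : ℕ), 1 ≤ K → (∀ n i, ∑ j, nm (R.d n i j) ≤ K) → ∀ n : ℕ,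
    ∃ L : ℝ, ∀ (N : ℕ → Subgroup G) [∀ i, (N i).Normal] [∀ i, (N i).FiniteIndex], Exhausting N →
      (∀ (F : Type w) [Field F] [CharZero F],
        Tendsto (fun i => (betti F R (N i) n : ℝ) / ((N i).index : ℝ)) atTop (nhds L)) ∧
      ∀ δ : ℝ, 0 < δ → ∀ᶠ i in atTop, ∀ (F : Type w) [Field F] (p : ℕ) [CharP F p], p.Prime →
        L - δ ≤ (betti F R (N i) n : ℝ) / ((N i).index : ℝ) ∧
          (betti F R (N i) n : ℝ) / ((N i).index : ℝ) ≤
            L + (Fintype.card (R.ι n) - L) * (Real.log K / Real.log p) + δ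

/-- (3) sequences which are rich for a subgroup `H` of finite index: exact limits `r p / [G : H]` in characteristic `p` -/
def RichSequences : Prop :=
  ∀ (G : Type) [Group G] [Group.FG G] (H : Subgroup G) [H.FiniteIndex] (D : ℕ) (R : FFR G D) (K : ℕ), 1 ≤ K →
    (∀ n i, ∑ j, nm (R.d n i j) ≤ K) → ∀ n : ℕ,
    ∃ r : ℕ → ℕ, (∀ (F : Type w) [Field F] (p : ℕ) [CharP F p] (N : ℕ → Subgroup G) [∀ i, (N i).Normal]
      [∀ i, (N i).FiniteIndex], RichIn H N →
        Tendsto (fun i => (betti F R (N i) n : ℝ) / ((N i).index : ℝ)) atTop (nhds ((r p : ℝ) / (H.index : ℝ)))) ∧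
      (∀ p, p.Prime → r 0 ≤ r p) ∧ r 0 ≤ Fintype.card (R.ι n) * H.index ∧
      ∀ S : Finset ℕ, (∀ p ∈ S, p.Prime) →
        ∏ p ∈ S, p ^ (r p - r 0) ≤ K ^ (Fintype.card (R.ι n) * H.index - r 0)

/-- (4) the same for the normalised ranks of matrices over `ℤ[G]` -/
def Ranks : Prop :=
  ∀ (G : Type) [Group G] (m n : ℕ) (A : Matrix (Fin m) (Fin n) (MonoidAlgebra ℤ G)) (K : ℕ), 1 ≤ K →
    (∀ i, ∑ j, nm (A i j) ≤ K) →
    (∀ (N : Subgroup G) [N.Normal] [N.FiniteIndex] (ι : Type) [Fintype ι] (F : ι → Type w) [∀ j, Field (F j)]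
      (p : ι → ℕ) [∀ j, CharP (F j) (p j)], (∀ j, (p j).Prime) → Function.Injective p →
      (∀ j, rk (F j) N A ≤ rk ℚ N A) ∧ ∏ j, p j ^ (rk ℚ N A - rk (F j) N A) ≤ K ^ rk ℚ N A) ∧
    (∃ L : ℝ, ∀ (N : ℕ → Subgroup G) [∀ i, (N i).Normal] [∀ i, (N i).FiniteIndex], Exhausting N →
      (∀ (F : Type w) [Field F] [CharZero F],
        Tendsto (fun i => (rk F (N i) A : ℝ) / ((N i).index : ℝ)) atTop (nhds L)) ∧
      ∀ δ : ℝ, 0 < δ → ∀ᶠ i in atTop, ∀ (F : Type w) [Field F] (p : ℕ) [CharP F p], p.Prime →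
        L - L * (Real.log K / Real.log p) - δ ≤ (rk F (N i) A : ℝ) / ((N i).index : ℝ) ∧
          (rk F (N i) A : ℝ) / ((N i).index : ℝ) ≤ L + δ) ∧
    ∀ (H : Subgroup G) [H.FiniteIndex], Group.FG G →
      ∃ r : ℕ → ℕ, (∀ (F : Type w) [Field F] (p : ℕ) [CharP F p] (N : ℕ → Subgroup G) [∀ i, (N i).Normal]
        [∀ i, (N i).FiniteIndex], RichIn H N →
          Tendsto (fun i => (rk F (N i) A : ℝ) / ((N i).index : ℝ)) atTop (nhds ((r p : ℝ) / (H.index : ℝ)))) ∧
        (∀ p, p.Prime → r p ≤ r 0) ∧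
        ∀ S : Finset ℕ, (∀ p ∈ S, p.Prime) → ∏ p ∈ S, p ^ (r 0 - r p) ≤ K ^ r 0

/-- (5) examples: chains are exhausting; cofinal sequences are rich for RFRS subgroups -/
def Examples : Prop :=
  ∀ (G : Type) [Group G], (∀ C : Chain G, Exhausting C.N) ∧
    ∀ (H : Subgroup G) [H.FiniteIndex] (N : ℕ → Subgroup G), RFRS H → Cofinal N → RichIn H N

theorem result : OneSubgroup.{w} ∧ AllSequences.{w} ∧ RichSequences.{w} ∧ Ranks.{w} ∧ Examples := by
  refine ⟨?_, ?_, ?_, ?_, ?_⟩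
  · intro G _ D R K hR n N _ _ ι _ F _ p _ hp hinj
    exact ⟨fun j => rat_le_betti R N n (F j), betti_prod R N n K hR F p hp hinj⟩
  · intro G _ D R K hK hR n
    exact betti_limit.{w} R K hK hR n
  · intro G _ _ H _ D R K hK hR n
    exact betti_rich.{w} H R K hK hR n
  · intro G _ m n A K hK hA
    exact ⟨fun N _ _ ι _ F _ p _ hp hinj => ⟨fun j => rk_le_rat N A (F j), rk_prod N A K hA F p hp hinj⟩,
      rank_limit.{w} A K hK hA, fun H _ _ => rank_rich.{w} H A K hK hA⟩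
  · intro G _
    exact ⟨fun C => exhausting_chain C, fun H _ N h h' => vi_richin H (vi_rfrs h) N h'⟩

end Pool.Agent.Results.MP_83fbc5_gt.AlmostAllCharacteristics
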