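import Pool.Agent.Lib.MP_83fbc5_gt.RFC.E8
import Pool.Agent.Lib.MP_83fbc5_gt.RFC.V1
import Pool.Agent.Lib.MP_83fbc5_gt.RFC.V2
import Pool.Agent.Lib.MP_83fbc5_gt.RFC.V5
import Pool.Agent.Lib.MP_83fbc5_gt.RFC.V6
import Pool.Agent.Lib.MP_83fbc5_gt.RFC.W1
import Pool.Agent.Lib.MP_83fbc5_gt.RFC.W2
import Pool.Agent.Lib.MP_83fbc5_gt.RFC.W3

/-!
# MP_83fbc5_gt: Q1 over every field for virtually RFRS groups along rich sequences, for instance cofinal chains

`RichIn H N`: `N i ≤ H` for all large `i`, and every nontrivial finitely generated subgroup `S` of `H` has a surjection `φ : S → ℤ` such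
that for infinitely many `m` and all large `i` (depending on `m`) `S ∩ N i ⊆ φ⁻¹(m ℤ)`. `Cofinal N`: every subgroup of finite index
contains `N i` for all large `i`. `VI H`: every nontrivial finitely generated subgroup `S` of `H` has a surjection `φ : S → ℤ` such that
for infinitely many `m` the subgroup `φ⁻¹(m ℤ)` contains the intersection of `S` with a subgroup of finite index of `H`.
`rk`, `betti`, `FFR` as in `MatrixEquivalence`.
-/

set_option autoImplicit false

namespace Pool.Agent.Results.MP_83fbc5_gt.CofinalChains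

open NBT RFC Filter

universe w

/-- (1) rich sequences of finite `G`-sets `X i`: the normalised ranks over `F` of every matrix over `F[G]`, acting on the permutation
modules `F[X i]`, converge to an integer -/
def RichConverge (F : Type w) [Field F] : Prop :=
  ∀ (G : Type) [Group G] (X : ℕ → Type) [∀ i, Fintype (X i)] [∀ i, DecidableEq (X i)] [∀ i, Nonempty (X i)]
    (σ : ∀ i, G →* Equiv.Perm (X i)), Rich σ → ∀ (m n : ℕ) (A : Matrix (Fin m) (Fin n) (MonoidAlgebra F G)),
      ∃ r : ℕ, Tendsto (fun i => ((blk (A.map (rp F (σ i)))).rank : ℝ) / (Fintype.card (X i) : ℝ)) atTop (nhds (r : ℝ))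

/-- (2) the normalised ranks of all matrices over `ℤ[G]` and the normalised Betti numbers converge over `F`, with a limit common to all
sequences of normal subgroups of finite index which are rich for the subgroup `H` of finite index; the product of the limit with
`[G : H]` is an integer -/
def CommonLimit (F : Type w) [Field F] : Prop :=
  ∀ (G : Type) [Group G] [Group.FG G] (H : Subgroup G) [H.FiniteIndex],
    (∀ (m n : ℕ) (A : Matrix (Fin m) (Fin n) (MonoidAlgebra ℤ G)), ∃ r : ℕ,
      ∀ (N : ℕ → Subgroup G) [∀ i, (N i).Normal] [∀ i, (N i).FiniteIndex], RichIn H N →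
        Tendsto (fun i => (rk F (N i) A : ℝ) / ((N i).index : ℝ)) atTop (nhds ((r : ℝ) / (H.index : ℝ)))) ∧
    ∀ (D : ℕ) (R : FFR G D) (n : ℕ), ∃ r : ℤ,
      ∀ (N : ℕ → Subgroup G) [∀ i, (N i).Normal] [∀ i, (N i).FiniteIndex], RichIn H N →
        Tendsto (fun i => (betti F R (N i) n : ℝ) / ((N i).index : ℝ)) atTop (nhds ((r : ℝ) / (H.index : ℝ)))

/-- (3) rich sequences: cofinal sequences if `H` is of class `VI`; sequences adapted to a tower of `H` for some `p ≥ 2`; sequences cofinal
in the pro-`p` topology of a residually unitriangular group `H` -/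
def RichExamples : Prop :=
  ∀ (G : Type) [Group G] (H : Subgroup G) [H.FiniteIndex] (N : ℕ → Subgroup G),
    (VI H → Cofinal N → RichIn H N) ∧
    (∀ (T : ℕ → Subgroup G) (p : ℕ), Tower H T → 2 ≤ p → Adapted p T N → RichIn H N) ∧
    ∀ p : ℕ, p.Prime → (∀ x : H, x ≠ 1 → ∃ (n : ℕ) (π : H →* (Matrix (Fin n) (Fin n) ℤ)ˣ), UniTri π ∧ π x ≠ 1) →
      PCofinal p H N → RichIn H N

/-- (4) the class `VI` contains the RFRS groups, the locally indicable LERF groups, the residually unitriangular groups and the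
groups residually in `VI`, and it is closed under subgroups and under semidirect products with finitely generated kernel -/
def ClassVI : Prop :=
  (∀ (H : Type) [Group H], RFRS H → VI H) ∧
  (∀ (H : Type) [Group H], LERF H → LocInd H → VI H) ∧
  (∀ (H : Type) [Group H], (∀ x : H, x ≠ 1 → ∃ (n : ℕ) (π : H →* (Matrix (Fin n) (Fin n) ℤ)ˣ), UniTri π ∧ π x ≠ 1) → VI H) ∧
  (∀ (H : Type) [Group H], (∀ x : H, x ≠ 1 → ∃ (Q : Type) (_ : Group Q) (π : H →* Q), VI Q ∧ π x ≠ 1) → VI H) ∧
  (∀ (H : Type) [Group H] (K : Subgroup H), VI H → VI K) ∧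
  ∀ (N Q : Type) [Group N] [Group Q] [Group.FG N] (φ : Q →* MulAut N), VI N → VI Q → VI (N ⋊[φ] Q)

/-- (5) cofinal chains exist in finitely generated groups -/
def CofinalExist : Prop :=
  ∀ (G : Type) [Group G] [Group.FG G],
    ∃ N : ℕ → Subgroup G, (∀ i, (N i).Normal) ∧ (∀ i, (N i).FiniteIndex) ∧ Antitone N ∧ Cofinal N

theorem result (F : Type w) [Field F] : RichConverge F ∧ CommonLimit F ∧ RichExamples ∧ ClassVI ∧ CofinalExist := by
  refine ⟨?_, ?_, ?_, ?_, ?_⟩
  · intro G _ X _ _ _ σ h m n A
    exact main_rich F σ h A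
  · intro G _ _ H _
    exact ⟨fun m n A => conv_rk' F H A, fun D R n => conv_betti' F H R n⟩
  · intro G _ H _ N
    exact ⟨fun h h' => vi_richin H h N h', fun T p h h' h'' => tower_richin H T h p h' N h'',
      fun p hp h h' => ut_richin H h p hp N h'⟩
  · exact ⟨fun H _ h => vi_rfrs h, fun H _ h h' => vi_lerf h h', fun H _ h => vi_ut h, fun H _ h => vi_res h,
      fun H _ K h => vi_sub h K, fun N Q _ _ _ φ hN hQ => vi_semi φ hN hQ⟩
  · intro G _ _
    exact exists_cofinal G

end Pool.Agent.Results.MP_83fbc5_gt.CofinalChains
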