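import Pool.Agent.Lib.MP_83fbc5_gt.UE

/-!
# MP_83fbc5_gt: Q1 is equivalent to the convergence of the normalised ranks of all matrices

`Q1 F D n`: question Q1 in degree `n` over the field `F` for all groups with a finite free resolution of length at most `D`;
`MatConv F D`: convergence, with a limit independent of the chain, of the normalised `F`-ranks of all matrices over the group rings of
these groups.
-/

set_option autoImplicit false

namespace Pool.Agent.Results.MP_83fbc5_gt.MatrixEquivalence

open NBT

universe w

/-- For every field `F`: for resolutions of length at most `D ≥ 3`, Q1 in degree 2, Q1 in degree 3, Q1 in all degrees and the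
convergence of all matrices are equivalent, and Q1 in degree `2 + k` for length `D + k` implies the convergence of all matrices for
length `D`; hence for every single degree `n ≥ 2`, Q1 in degree `n` is equivalent to the convergence of all matrices. -/
theorem result (F : Type w) [Field F] :
    (∀ D, 3 ≤ D → ((Q1 F D 2 ↔ MatConv F D) ∧ (Q1 F D 3 ↔ MatConv F D) ∧ ((∀ n, Q1 F D n) ↔ MatConv F D) ∧
      ∀ k, Q1 F (D + k) (2 + k) → MatConv F D)) ∧
    ∀ n, 2 ≤ n → ((∀ D, Q1 F D n) ↔ ∀ D, MatConv F D) :=
  main_all F

end Pool.Agent.Results.MP_83fbc5_gt.MatrixEquivalence
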