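import Pool.Agent.Lib.MP_83fbc5_gt.AML

/-!
# MP_83fbc5_gt: homology growth of the groups `A_L ⋊ H`

`L : VG H` encodes a free `H`-flag complex of dimension at most 2 with finitely many orbits of cells (vertices `H × L.I`), `L.GG` is
the semidirect product of the right-angled Artin group of the graph `L.gr` and `H`, `L.iH` the inclusion of `H`.
-/

set_option autoImplicit false

namespace Pool.Agent.Results.MP_83fbc5_gt.SemidirectGrowth

open NBT Filter

universe w

/-- the normalised Betti number `b_n(N; F) / [G : N]` -/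
noncomputable def nb (F : Type w) [Field F] {G : Type} [Group G] {D : ℕ} (T : FFR G D) (N : Subgroup G) [N.Normal]
    (n : ℕ) : ℝ :=
  (betti F T N n : ℝ) / (N.index : ℝ)

/-- the normalised relative Betti number -/
noncomputable def nrel (F : Type w) [Field F] {H : Type} [Group H] {L : VG H} {D : ℕ} {R : FFR H D} (f : CMap L R)
    (N : Subgroup H) [N.Normal] (n : ℕ) : ℝ :=
  (relb F f N n : ℝ) / (N.index : ℝ)

/-- the normalised Betti number of `L/N` -/
noncomputable def ncell (F : Type w) [Field F] {H : Type} [Group H] (L : VG H) (N : Subgroup H) [N.Normal] (n : ℕ) : ℝ :=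
  (cellb F L N n : ℝ) / (N.index : ℝ)

/-- Q1 for one group, one field and one degree: one real number is the limit along all chains -/
def HasLimit (F : Type w) [Field F] {G : Type} [Group G] {D : ℕ} (T : FFR G D) (n : ℕ) : Prop :=
  ∃ ℓ : ℝ, ∀ C : Chain G, Tendsto (fun i => nb F T (C.N i) n) atTop (nhds ℓ)

/-- one real number is the limit of the normalised relative Betti numbers along all chains of `H` -/
def RelHasLimit (F : Type w) [Field F] {H : Type} [Group H] {L : VG H} {D : ℕ} {R : FFR H D} (f : CMap L R) (n : ℕ) :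
    Prop :=
  ∃ ℓ : ℝ, ∀ C : Chain H, Tendsto (fun i => nrel F f (C.N i) n) atTop (nhds ℓ)

/-- (1) every group `H` with a finite free resolution: the normalised Betti numbers of `A_L ⋊ H` are asymptotic to the normalised
relative Betti numbers, and Q1 for `A_L ⋊ H` is equivalent to the convergence of the latter -/
def General (F : Type w) [Field F] : Prop :=
  ∀ (H : Type) [Group H] (L : VG H) (D : ℕ) (R : FFR H D),
    (Group.IsFinitelyPresented H → Group.IsFinitelyPresented L.GG) ∧ Nonempty (FFR L.GG (max D 3)) ∧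
    Nonempty (CMap L R) ∧ (∀ C : Chain H, ∃ C' : Chain L.GG, ∀ i, (C'.N i).comap L.iH = C.N i) ∧
    ∀ (f : CMap L R) (D' : ℕ) (T : FFR L.GG D') (n : ℕ),
      (∀ C : Chain L.GG,
        Tendsto (fun i => nb F T (C.N i) n - nrel F f ((C.N i).comap L.iH) n) atTop (nhds 0)) ∧
      (HasLimit F T n ↔ RelHasLimit F f n)

/-- the normalised ranks of all matrices over `ℤ[H]` converge along all chains, with a limit independent of the chain -/
def RanksConverge (F : Type w) [Field F] (H : Type) [Group H] : Prop :=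
  ∀ (m n : ℕ) (A : Matrix (Fin m) (Fin n) (MonoidAlgebra ℤ H)), ∃ ℓ : ℝ, ∀ C : Chain H,
    Tendsto (fun i => (rk F (C.N i) A : ℝ) / ((C.N i).index : ℝ)) atTop (nhds ℓ)

/-- (2) if the normalised ranks over `ℤ[H]` converge, then Q1 holds for `A_L ⋊ H` -/
def FromRanks (F : Type w) [Field F] : Prop :=
  ∀ (H : Type) [Group H], RanksConverge F H → ∀ (L : VG H) (D : ℕ), Nonempty (FFR H D) →
    ∀ (D' : ℕ) (T : FFR L.GG D') (n : ℕ), HasLimit F T n

/-- (3) amenable groups `H` such that `F[H]` has no zero divisors: Q1 holds for `A_L ⋊ H`, the limits are integers -/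
def Amenable (F : Type w) [Field F] : Prop :=
  ∀ (H : Type) [Group H] [NoZeroDivisors (MonoidAlgebra F H)], Folner H →
    ∀ (L : VG H) (D : ℕ), Nonempty (FFR H D) → ∀ (D' : ℕ) (T : FFR L.GG D') (n : ℕ), ∃ r : ℤ, ∀ C : Chain L.GG,
      Tendsto (fun i => nb F T (C.N i) n) atTop (nhds (r : ℝ))

/-- (4) groups `H` with a central element of infinite order: only `L` matters -/
def Central (F : Type w) [Field F] : Prop :=
  ∀ (H : Type) [Group H] (L : VG H) (D : ℕ), Nonempty (FFR H D) →
    (∃ t : H, (∀ h, h * t = t * h) ∧ ∀ k : ℕ, 0 < k → t ^ k ≠ 1) → ∀ (D' : ℕ) (T : FFR L.GG D') (C : Chain L.GG),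
      Tendsto (fun i => nb F T (C.N i) 0) atTop (nhds 0) ∧
      ∀ n, Tendsto (fun i => nb F T (C.N i) (n + 1) - ncell F L ((C.N i).comap L.iH) n) atTop (nhds 0)

/-- (5) free abelian groups `H`: explicit limits -/
def FreeAbelian (F : Type w) [Field F] : Prop :=
  ∀ (d : ℕ), 0 < d → ∀ L : VG (Zd d),
    Group.IsFinitelyPresented L.GG ∧ Nonempty (FFR L.GG (max d 3)) ∧ Nonempty (Chain L.GG) ∧
    ∀ (D' : ℕ) (T : FFR L.GG D') (C : Chain L.GG), Tendsto (fun i => nb F T (C.N i) 0) atTop (nhds 0) ∧
      ∀ n, Tendsto (fun i => nb F T (C.N i) (n + 1)) atTop (nhds (L.lK F n : ℝ))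

theorem result (F : Type w) [Field F] : General F ∧ FromRanks F ∧ Amenable F ∧ Central F ∧ FreeAbelian F := by
  refine ⟨?_, ?_, ?_, ?_, ?_⟩
  · intro H _ L D R
    exact ⟨fun h => fp_GG L h, ffr_GG F L R, exists_CMap L R, fun C => L.chain_lift C,
      fun f D' T n => ⟨fun C => growth_rel F L R f T n C, q1_iff F L R f T n⟩⟩
  · rintro H _ hm L D ⟨R⟩ D' T n
    exact q1_of_ranks F hm L R T n
  · rintro H _ _ hH L D ⟨R⟩ D' T n
    exact growth_am F hH L R T n
  · rintro H _ L D ⟨R⟩ ⟨t, ht, ht'⟩ D' T C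
    exact growth_central F R t ht ht' L T C
  · intro d hd L
    obtain ⟨R⟩ := ffr_zd d
    exact ⟨(zd_facts L).1, ffr_GG F L R, (zd_facts L).2, fun D' T C => growth_zd F hd L T C⟩

end Pool.Agent.Results.MP_83fbc5_gt.SemidirectGrowth
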